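import Pool.Agent.MP_c1891a_nt.G43.SpecA

/-
An integer shear makes an element of a Tate algebra distinguished.
-/

namespace Pool.Agent.MP_c1891a_nt.G43

open Finset Filter Module
open scoped NNReal

/-- the unit ball of an ultrametric ring. -/
def shearBall (A : Type) [NormedCommRing A] [IsUltrametricDist A] (h1 : ‖(1 : A)‖ ≤ 1) :
    Subring A where
  carrier := {x | ‖x‖ ≤ 1}
  zero_mem' := by simp
  one_mem' := h1
  add_mem' := fun {a b} ha hb => (IsUltrametricDist.norm_add_le_max a b).trans (max_le ha hb)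
  neg_mem' := fun {a} ha => by simpa using ha
  mul_mem' := fun {a b} ha hb => (norm_mul_le a b).trans (mul_le_one₀ ha (norm_nonneg _) hb)

/-- the open unit ball is an ideal of the closed one. -/
def shearMax (K : Type) [NormedField K] [IsUltrametricDist K] :
    Ideal (shearBall K norm_one.le) where
  carrier := {x | ‖x.1‖ < 1}
  zero_mem' := by simp
  add_mem' := fun {a b} ha hb =>
    (IsUltrametricDist.norm_add_le_max a.1 b.1).trans_lt (max_lt ha hb)
  smul_mem' := fun c x hx => by
    show ‖c.1 * x.1‖ < 1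
    rw [norm_mul]
    exact mul_lt_one_of_nonneg_of_lt_one_right c.2 (norm_nonneg _) hx

theorem shearMax_prime (K : Type) [NormedField K] [IsUltrametricDist K] :
    (shearMax K).IsPrime := by
  refine ⟨(Ideal.ne_top_iff_one _).2 fun h => ?_, fun {x y} h => ?_⟩
  · have : ‖(1 : K)‖ < 1 := h
    simp at this
  · have h' : ‖x.1 * y.1‖ < 1 := h
    by_contra hc
    have hx : ‖x.1‖ = 1 := le_antisymm x.2 (not_lt.1 fun h => hc (Or.inl h))
    have hy : ‖y.1‖ = 1 := le_antisymm y.2 (not_lt.1 fun h => hc (Or.inr h))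
    rw [norm_mul, hx, hy] at h'
    simp at h'

/-- a polynomial with coefficients of norm one takes a value of norm one at an integer point. -/
theorem shear_point {K σ ι : Type} [NormedField K] [IsUltrametricDist K] [Fintype σ] (hU : UK K)
    (S : Finset ι) (c : ι → K) (β : ι → σ →₀ ℕ) (hβ : Set.InjOn β S) (hc : ∀ α ∈ S, ‖c α‖ = 1)
    (hS : S.Nonempty) : ∃ x : σ → ℤ, ‖∑ α ∈ S, c α * ∏ i, (x i : K) ^ β α i‖ = 1 := by
  classical
  by_contra hx
  have := shearMax_prime K
  let O := shearBall K norm_one.le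
  let φ : O →+* O ⧸ shearMax K := Ideal.Quotient.mk _
  let c' : ι → O := fun α => ⟨if α ∈ S then c α else 0, by
    show ‖if α ∈ S then c α else 0‖ ≤ 1
    split_ifs with h
    · exact (hc α h).le
    · simp⟩
  have hinj : Function.Injective (Nat.cast : ℕ → O ⧸ shearMax K) := by
    have key : ∀ a b : ℕ, (a : O ⧸ shearMax K) = ((a + b : ℕ) : O ⧸ shearMax K) → b = 0 := by
      intro a b h
      by_contra hb
      have h1 : φ (b : O) = 0 := by
        rw [map_natCast]
        rw [Nat.cast_add] at h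
        exact left_eq_add.1 h
      have h2 : ‖((b : O) : K)‖ < 1 := Ideal.Quotient.eq_zero_iff_mem.1 h1
      have h3 : ((b : O) : K) = (b : K) := by simp
      rw [h3, hU b hb] at h2
      exact lt_irrefl _ h2
    intro a b h
    rcases le_total a b with hab | hab
    · obtain ⟨k, rfl⟩ := Nat.exists_eq_add_of_le hab
      rw [key a k h, add_zero]
    · obtain ⟨k, rfl⟩ := Nat.exists_eq_add_of_le hab
      rw [key b k h.symm, add_zero]
  have hq : (∑ α ∈ S, MvPolynomial.monomial (β α) (φ (c' α))) = 0 := by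
    refine MvPolynomial.funext_set (fun _ => Set.range (Nat.cast : ℕ → O ⧸ shearMax K))
      (fun _ => Set.infinite_range_of_injective hinj) fun y hy => ?_
    choose x hxy using fun i => hy i (Set.mem_univ i)
    have e1 : MvPolynomial.eval y (∑ α ∈ S, MvPolynomial.monomial (β α) (φ (c' α))) =
        φ (∑ α ∈ S, c' α * ∏ i, (x i : O) ^ β α i) := by
      rw [map_sum, map_sum]
      refine Finset.sum_congr rfl fun α _ => ?_
      rw [MvPolynomial.eval_monomial, Finsupp.prod_fintype _ _ fun _ => pow_zero _, map_mul,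
        map_prod]
      simp only [map_pow, map_natCast, hxy]
    rw [e1, map_zero]
    refine Ideal.Quotient.eq_zero_iff_mem.2 ?_
    have hle : ‖(∑ α ∈ S, c' α * ∏ i, (x i : O) ^ β α i).1‖ ≤ 1 :=
      (∑ α ∈ S, c' α * ∏ i, (x i : O) ^ β α i).2
    refine lt_of_le_of_ne hle fun h => hx ⟨fun i => x i, ?_⟩
    rw [← h]
    congr 1
    push_cast
    refine Finset.sum_congr rfl fun α hα => ?_
    simp only [c', if_pos hα]
  obtain ⟨α₀, h₀⟩ := hS
  have h1 := congrArg (MvPolynomial.coeff (β α₀)) hq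
  rw [MvPolynomial.coeff_sum, MvPolynomial.coeff_zero, Finset.sum_eq_single α₀
    (fun α hα hne => by
      rw [MvPolynomial.coeff_monomial, if_neg fun e => hne (hβ hα h₀ e)])
    (fun h => absurd h₀ h), MvPolynomial.coeff_monomial, if_pos rfl] at h1
  have h2 : ‖(c' α₀).1‖ < 1 := Ideal.Quotient.eq_zero_iff_mem.1 h1
  simp only [c', if_pos h₀, hc α₀ h₀] at h2
  exact lt_irrefl _ h2

theorem shear_prod {A ι : Type} [CommRing A] (s : Finset ι) (f : ι → Polynomial A) (m : ι → ℕ)
    (h : ∀ i, (f i).natDegree ≤ m i) : (∏ i ∈ s, f i).natDegree ≤ ∑ i ∈ s, m i ∧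
      (∏ i ∈ s, f i).coeff (∑ i ∈ s, m i) = ∏ i ∈ s, (f i).coeff (m i) := by
  classical
  induction s using Finset.induction_on with
  | empty => simp
  | insert a s ha ih =>
    rw [Finset.prod_insert ha, Finset.sum_insert ha, Finset.prod_insert ha]
    exact ⟨Polynomial.natDegree_mul_le.trans (add_le_add (h a) ih.1),
      by rw [Polynomial.coeff_mul_add_eq_of_natDegree_le (h a) ih.1, ih.2]⟩

theorem shear_lin {A ι : Type} [CommRing A] [Fintype ι] (u v : ι → A) (m : ι → ℕ) :
    (∏ i, (Polynomial.C (u i) + Polynomial.C (v i) * Polynomial.X) ^ m i).natDegree ≤ ∑ i, m i ∧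
      (∏ i, (Polynomial.C (u i) + Polynomial.C (v i) * Polynomial.X) ^ m i).coeff (∑ i, m i) =
        ∏ i, v i ^ m i := by
  have h1 : ∀ i, (Polynomial.C (u i) + Polynomial.C (v i) * Polynomial.X).natDegree ≤ 1 := by
    intro i
    rw [add_comm]
    exact Polynomial.natDegree_linear_le
  obtain ⟨a, b⟩ := shear_prod Finset.univ
    (fun i => (Polynomial.C (u i) + Polynomial.C (v i) * Polynomial.X) ^ m i) m fun i =>
      Polynomial.natDegree_pow_le.trans (by simpa using Nat.mul_le_mul_left (m i) (h1 i))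
  refine ⟨a, b.trans (Finset.prod_congr rfl fun i _ => ?_)⟩
  have := Polynomial.coeff_pow_of_natDegree_le (m := m i) (h1 i)
  rw [mul_one] at this
  rw [this]
  simp [Polynomial.coeff_C]

section

variable {K A : Type} [NontriviallyNormedField K] [NormedCommRing A] [NormedAlgebra K A]
  {d : ℕ}

theorem shear_one {Y : Fin d → A} (hY : IsTate K Y) : ‖(1 : A)‖ = 1 := by
  have h := hY.1 1
  rw [map_one, gn, MvPolynomial.support_one, Finset.sup_singleton] at h
  have h' := congrArg NNReal.toReal h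
  simpa using h'

theorem shear_var {Y : Fin d → A} (hY : IsTate K Y) (i : Fin d) : ‖Y i‖ = 1 := by
  have h := hY.1 (MvPolynomial.X i)
  rw [MvPolynomial.aeval_X, gn, MvPolynomial.support_X, Finset.sup_singleton] at h
  have h' := congrArg NNReal.toReal h
  simpa using h'

theorem shear_aeval (x : Fin d → A) (p : MvPolynomial (Fin d) K) : MvPolynomial.aeval x p =
    ∑ α ∈ p.support, algebraMap K A (p.coeff α) * ∏ i, x i ^ α i := by
  rw [MvPolynomial.aeval_def, MvPolynomial.eval₂_eq']

theorem shear_term [IsUltrametricDist A] (h1 : ‖(1 : A)‖ = 1) {x : Fin d → A}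
    (hx : ∀ i, ‖x i‖ ≤ 1) (r : K) (m : Fin d → ℕ) :
    ‖algebraMap K A r * ∏ i, x i ^ m i‖₊ ≤ ‖r‖₊ := by
  have h : (∏ i, x i ^ m i) ∈ shearBall A h1.le :=
    prod_mem fun i _ => pow_mem (show x i ∈ shearBall A h1.le from hx i) _
  rw [← Algebra.smul_def]
  show ‖r • ∏ i, x i ^ m i‖ ≤ ‖r‖
  rw [norm_smul]
  exact mul_le_of_le_one_right (norm_nonneg _) h

theorem shear_le [IsUltrametricDist A] (h1 : ‖(1 : A)‖ = 1) {x : Fin d → A}
    (hx : ∀ i, ‖x i‖ ≤ 1) (p : MvPolynomial (Fin d) K) : ‖MvPolynomial.aeval x p‖₊ ≤ gn p := by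
  rw [shear_aeval]
  exact IsUltrametricDist.nnnorm_sum_le_of_forall_le fun α hα =>
    (shear_term h1 hx _ _).trans (Finset.le_sup (f := fun α => ‖p.coeff α‖₊) hα)

theorem shear_norm [IsUltrametricDist A] {Y : Fin d → A} (hY : IsTate K Y) (n : Fin d)
    (a : Fin d → ℤ) (i : Fin d) : ‖if i < n then Y i - a i • Y n else Y i‖ ≤ 1 := by
  split_ifs
  · rw [sub_eq_add_neg]
    refine (IsUltrametricDist.norm_add_le_max _ _).trans (max_le (shear_var hY i).le ?_)
    rw [norm_neg]
    exact (IsUltrametricDist.norm_zsmul_le _ _).trans (shear_var hY n).le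
  · exact (shear_var hY i).le

theorem shear_tate [IsUltrametricDist A] {Y : Fin d → A} (hY : IsTate K Y) (n : Fin d)
    (a : Fin d → ℤ) : IsTate K fun i => if i < n then Y i - a i • Y n else Y i := by
  let s : (Fin d → ℤ) → Fin d → MvPolynomial (Fin d) K := fun b i =>
    if i < n then MvPolynomial.X i - b i • MvPolynomial.X n else MvPolynomial.X i
  have e1 : ∀ (b : Fin d → ℤ) (x : Fin d → A) (p : MvPolynomial (Fin d) K),
      MvPolynomial.aeval x (MvPolynomial.aeval (s b) p) =
        MvPolynomial.aeval (fun i => if i < n then x i - b i • x n else x i) p := by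
    intro b x p
    rw [← AlgHom.comp_apply, MvPolynomial.comp_aeval]
    congr 2
    funext i
    simp only [s]
    split_ifs <;> simp
  have e2 : ∀ p : MvPolynomial (Fin d) K,
      MvPolynomial.aeval (s (-a)) (MvPolynomial.aeval (s a) p) = p := by
    intro p
    rw [← AlgHom.comp_apply, MvPolynomial.comp_aeval]
    have : (fun i => MvPolynomial.aeval (s (-a)) (s a i)) = MvPolynomial.X := by
      funext i
      simp only [s]
      split_ifs with h
      · simp [h]
      · simp [h]
    rw [this, MvPolynomial.aeval_X_left_apply]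
  refine ⟨fun p => le_antisymm (shear_le (shear_one hY) (shear_norm hY n a) p) ?_, ?_⟩
  · rw [← e1, hY.1]
    conv_lhs => rw [← e2 p, ← hY.1, e1]
    exact shear_le (shear_one hY) (shear_norm hY n (-a)) _
  · refine hY.2.mono ?_
    rintro _ ⟨p, rfl⟩
    refine ⟨MvPolynomial.aeval (s (-a)) p, ?_⟩
    simp only [e1]
    congr 2
    funext i
    by_cases h : i < n
    · simp [h]
    · simp [h]

theorem shear_ts (Y : Fin d → A) (n : Fin d) (a : Fin d → ℤ) (m : ℕ) (hm : (n : ℕ) < m) :
    TS K (fun i => if i < n then Y i - a i • Y n else Y i) m = TS K Y m := by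
  unfold TS
  congr 1
  refine le_antisymm (Algebra.adjoin_le ?_) (Algebra.adjoin_le ?_)
  · rintro _ ⟨i, hi, rfl⟩
    have h1 : Y i ∈ Algebra.adjoin K (Y '' {i | (i : ℕ) < m}) := Algebra.subset_adjoin ⟨i, hi, rfl⟩
    have h2 : Y n ∈ Algebra.adjoin K (Y '' {i | (i : ℕ) < m}) := Algebra.subset_adjoin ⟨n, hm, rfl⟩
    show (if i < n then Y i - a i • Y n else Y i) ∈ Algebra.adjoin K (Y '' {i | (i : ℕ) < m})
    split_ifs
    · exact sub_mem h1 (zsmul_mem h2 _)
    · exact h1
  · rintro _ ⟨i, hi, rfl⟩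
    have h1 : (if i < n then Y i - a i • Y n else Y i) ∈ Algebra.adjoin K
        ((fun i => if i < n then Y i - a i • Y n else Y i) '' {i | (i : ℕ) < m}) :=
      Algebra.subset_adjoin ⟨i, hi, rfl⟩
    have h2 : Y n ∈ Algebra.adjoin K
        ((fun i => if i < n then Y i - a i • Y n else Y i) '' {i | (i : ℕ) < m}) :=
      Algebra.subset_adjoin ⟨n, hm, by simp⟩
    by_cases h : i < n
    · rw [if_pos h] at h1
      have h3 := add_mem h1 (zsmul_mem h2 (a i))
      rwa [sub_add_cancel] at h3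
    · rwa [if_neg h] at h1

theorem shear_approx (Y : Fin d → A) (m : ℕ) {g : A} (hg : g ∈ TS K Y m) (h0 : g ≠ 0) :
    ∃ p : MvPolynomial (Fin d) K, (∀ α ∈ p.support, ∀ i : Fin d, m ≤ (i : ℕ) → α i = 0) ∧
      ‖g - MvPolynomial.aeval Y p‖ < ‖g‖ := by
  have hc : g ∈ closure (Algebra.adjoin K (Y '' {i | (i : ℕ) < m}) : Set A) := hg
  obtain ⟨b, hb, hd⟩ := Metric.mem_closure_iff.1 hc _ (norm_pos_iff.2 h0)
  have e : Algebra.adjoin K (Y '' {i | (i : ℕ) < m}) =
      (MvPolynomial.supported K {i : Fin d | (i : ℕ) < m}).map (MvPolynomial.aeval Y) := by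
    rw [MvPolynomial.supported, AlgHom.map_adjoin, Set.image_image]
    simp only [MvPolynomial.aeval_X]
  rw [e] at hb
  obtain ⟨p, hp, rfl⟩ := hb
  refine ⟨p, fun α hα i hi => ?_, by rwa [dist_eq_norm] at hd⟩
  by_contra hne
  have h1 : i ∈ p.vars := (MvPolynomial.mem_vars_iff_mem_support i).2
    ⟨α, hα, Finsupp.mem_support_iff.2 hne⟩
  exact absurd (MvPolynomial.mem_supported.1 hp h1) (not_lt.2 hi)

end

theorem sShear : SShear := by
  classical
  intro K A _ _ _ _ _ d Y hU hY n g hg h0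
  have h1 := shear_one hY
  have hY1 : ∀ i, ‖Y i‖ ≤ 1 := fun i => (shear_var hY i).le
  obtain ⟨p, hp, hgp⟩ := shear_approx Y _ hg h0
  have hM : gn p = ‖g‖₊ := by
    rw [← hY.1]
    have h2 : ‖g - MvPolynomial.aeval Y p‖ ≠ ‖-g‖ := by rw [norm_neg]; exact hgp.ne
    have h3 := IsUltrametricDist.norm_add_eq_max_of_norm_ne_norm h2
    rw [norm_neg, max_eq_right hgp.le, sub_add_eq_add_sub, add_neg_cancel, zero_sub,
      norm_neg] at h3
    exact NNReal.coe_injective h3
  have hg0 : 0 < ‖g‖₊ := nnnorm_pos.2 h0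
  have hg0' : 0 < ‖g‖ := norm_pos_iff.2 h0
  have hne : p.support.Nonempty := by
    by_contra h
    rw [gn, Finset.not_nonempty_iff_eq_empty.1 h, Finset.sup_empty] at hM
    exact hg0.ne hM
  obtain ⟨α₀, hα₀, e₀⟩ := Finset.exists_mem_eq_sup _ hne fun α => ‖p.coeff α‖₊
  have hc₀ : ‖p.coeff α₀‖₊ = ‖g‖₊ := e₀.symm.trans hM
  let S := p.support.filter fun α => ‖p.coeff α‖₊ = ‖g‖₊
  have hS : ∀ α ∈ S, ‖p.coeff α‖ = ‖g‖ := fun α hα =>
    congrArg NNReal.toReal (Finset.mem_filter.1 hα).2
  have hα₀S : α₀ ∈ S := Finset.mem_filter.2 ⟨hα₀, hc₀⟩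
  obtain ⟨α₁, hα₁, hmax⟩ := S.exists_max_image (fun α => ∑ i, α i) ⟨α₀, hα₀S⟩
  let T := S.filter fun α => ∑ i, α i = ∑ i, α₁ i
  obtain ⟨x, hx⟩ := shear_point hU T (fun α => (p.coeff α₀)⁻¹ * p.coeff α)
    (fun α => α.erase n) (fun α hα β hβ h => by
      have a1 : ∀ i, i ≠ n → α i = β i := fun i hi => by
        have := DFunLike.congr_fun h i
        simpa only [Finsupp.erase_ne hi] using this
      have a2 := (Finset.mem_filter.1 hα).2.trans (Finset.mem_filter.1 hβ).2.symm
      rw [← Finset.add_sum_erase _ _ (Finset.mem_univ n),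
        ← Finset.add_sum_erase _ (fun i => β i) (Finset.mem_univ n),
        Finset.sum_congr rfl fun i hi => a1 i (Finset.ne_of_mem_erase hi)] at a2
      ext i
      by_cases hi : i = n
      · rw [hi]
        exact Nat.add_right_cancel a2
      · exact a1 i hi)
    (fun α hα => by
      rw [norm_mul, norm_inv, hS _ hα₀S, hS _ (Finset.mem_filter.1 hα).1,
        inv_mul_cancel₀ hg0'.ne'])
    ⟨α₁, Finset.mem_filter.2 ⟨hα₁, rfl⟩⟩
  let v : Fin d → ℤ := Function.update x n 1
  have hvn : v n = 1 := Function.update_self ..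
  let H : K := ∑ α ∈ T, p.coeff α * ∏ i, (v i : K) ^ α i
  have hH : ‖H‖ = ‖g‖ := by
    have e : ∑ α ∈ T, (p.coeff α₀)⁻¹ * p.coeff α * ∏ i, (x i : K) ^ α.erase n i =
        (p.coeff α₀)⁻¹ * H := by
      rw [Finset.mul_sum]
      refine Finset.sum_congr rfl fun α _ => ?_
      rw [mul_assoc]
      congr 2
      refine Finset.prod_congr rfl fun i _ => ?_
      by_cases hi : i = n
      · rw [hi, hvn]
        simp
      · rw [Finsupp.erase_ne hi]
        simp only [v, Function.update_of_ne hi]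
    rw [e, norm_mul, norm_inv, hS _ hα₀S, inv_mul_eq_one₀ hg0'.ne'] at hx
    exact hx.symm
  have hH0 : H ≠ 0 := norm_pos_iff.1 (hH ▸ hg0')
  let Y' : Fin d → A := fun i => if i < n then Y i - v i • Y n else Y i
  let u : Fin d → A := fun i => if i < n then Y' i else 0
  let P : (Fin d →₀ ℕ) → Polynomial A := fun α =>
    ∏ i, (Polynomial.C (u i) + Polynomial.C (v i : A) * Polynomial.X) ^ α i
  have hP := fun α : Fin d →₀ ℕ => shear_lin u (fun i => (v i : A)) fun i => α i
  refine ⟨v, Y', H⁻¹, ∑ α ∈ S, Polynomial.C (algebraMap K A (H⁻¹ * p.coeff α)) * P α,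
    fun _ => rfl, shear_tate hY n v, shear_ts Y n v, ?_, ?_, ?_⟩
  · refine Polynomial.monic_of_natDegree_le_of_coeff_eq_one (∑ i, α₁ i) ?_ ?_
    · refine Polynomial.natDegree_sum_le_of_forall_le _ _ fun α hα => ?_
      exact (Polynomial.natDegree_C_mul_le _ _).trans ((hP α).1.trans (hmax α hα))
    · rw [Polynomial.finsetSum_coeff, ← Finset.sum_filter_of_ne
        (p := fun α : Fin d →₀ ℕ => ∑ i, α i = ∑ i, α₁ i)]
      · rw [← map_one (algebraMap K A), ← inv_mul_cancel₀ hH0, Finset.mul_sum, map_sum]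
        refine Finset.sum_congr rfl fun α hα => ?_
        rw [Polynomial.coeff_C_mul, ← (Finset.mem_filter.1 hα).2, (hP α).2, ← mul_assoc,
          map_mul _ (H⁻¹ * p.coeff α), map_prod]
        simp only [map_pow, map_intCast]
      · intro α hα hne'
        by_contra h
        rw [Polynomial.coeff_C_mul, Polynomial.coeff_eq_zero_of_natDegree_lt
          ((hP α).1.trans_lt (lt_of_le_of_ne (hmax α hα) h)), mul_zero] at hne'
        exact hne' rfl
  · let R : Subring A := (TS K Y' n).toSubring ⊓ shearBall A h1.le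
    have hC : ∀ r ∈ R, Polynomial.C r ∈ Polynomial.lifts R.subtype := fun r hr =>
      Polynomial.C_mem_lifts R.subtype ⟨r, hr⟩
    have hw : (∑ α ∈ S, Polynomial.C (algebraMap K A (H⁻¹ * p.coeff α)) * P α) ∈
        Polynomial.lifts R.subtype := by
      refine sum_mem fun α hα => mul_mem (hC _ ⟨(TS K Y' n).algebraMap_mem _, ?_⟩)
        (prod_mem fun i _ => pow_mem (add_mem (hC _ ?_)
          (mul_mem (hC _ (intCast_mem R _)) (Polynomial.X_mem_lifts _))) _)
      · show ‖algebraMap K A (H⁻¹ * p.coeff α)‖ ≤ 1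
        rw [norm_algebraMap, h1, mul_one, norm_mul, norm_inv, hH, hS α hα,
          inv_mul_cancel₀ hg0'.ne']
      · by_cases hi : i < n
        · simp only [u, if_pos hi]
          exact ⟨Subalgebra.le_topologicalClosure _ (Algebra.subset_adjoin ⟨i, hi, rfl⟩),
            shear_norm hY n v i⟩
        · simp only [u, if_neg hi]
          exact zero_mem R
    intro k
    obtain ⟨r, hr⟩ := (Polynomial.lifts_iff_coeff_lifts _).1 hw k
    rw [← hr]
    exact r.2
  · have hYn : Y' n = Y n := if_neg (lt_irrefl n)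
    have e1 : (∑ α ∈ S, Polynomial.C (algebraMap K A (H⁻¹ * p.coeff α)) * P α).eval (Y' n) =
        H⁻¹ • ∑ α ∈ S, algebraMap K A (p.coeff α) * ∏ i, Y i ^ α i := by
      rw [Polynomial.eval_finsetSum, Finset.smul_sum]
      refine Finset.sum_congr rfl fun α hα => ?_
      rw [Polynomial.eval_mul, Polynomial.eval_C, map_mul, mul_assoc, Algebra.smul_def,
        Polynomial.eval_prod]
      congr 2
      refine Finset.prod_congr rfl fun i _ => ?_
      rw [Polynomial.eval_pow, Polynomial.eval_add, Polynomial.eval_mul, Polynomial.eval_C,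
        Polynomial.eval_C, Polynomial.eval_X, hYn]
      rcases lt_trichotomy i n with hi | hi | hi
      · simp only [u, Y', if_pos hi, zsmul_eq_mul, sub_add_cancel]
      · subst hi
        simp only [u, if_neg (lt_irrefl i), hvn, Int.cast_one, one_mul, zero_add]
      · rw [hp α (Finset.mem_filter.1 hα).1 i hi, pow_zero, pow_zero]
    have e2 : g - ∑ α ∈ S, algebraMap K A (p.coeff α) * ∏ i, Y i ^ α i =
        (g - MvPolynomial.aeval Y p) + ∑ α ∈ p.support.filter fun α => ¬ ‖p.coeff α‖₊ = ‖g‖₊,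
          algebraMap K A (p.coeff α) * ∏ i, Y i ^ α i := by
      rw [shear_aeval, ← Finset.sum_filter_add_sum_filter_not p.support
        fun α => ‖p.coeff α‖₊ = ‖g‖₊]
      ring
    have e3 : ‖∑ α ∈ p.support.filter fun α => ¬ ‖p.coeff α‖₊ = ‖g‖₊,
        algebraMap K A (p.coeff α) * ∏ i, Y i ^ α i‖₊ < ‖g‖₊ := by
      refine (Finset.nnnorm_sum_le_sup_nnnorm _ _).trans_lt ((Finset.sup_lt_iff hg0).2 ?_)
      intro α hα
      obtain ⟨a1, a2⟩ := Finset.mem_filter.1 hα
      refine (shear_term h1 hY1 _ _).trans_lt (lt_of_le_of_ne ?_ a2)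
      rw [← hM]
      exact Finset.le_sup (f := fun α => ‖p.coeff α‖₊) a1
    rw [e1, ← smul_sub, norm_smul, norm_inv, hH, inv_mul_lt_one₀ hg0', e2]
    exact (IsUltrametricDist.norm_add_le_max _ _).trans_lt (max_lt hgp e3)

end Pool.Agent.MP_c1891a_nt.G43
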